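import Mathlib
import Pool.Agent.TH997.US.Stm

/-!
# Few `n` are non-generic for large primes

Proof of `NonGen k` for `k ≥ 1` (part A5 of the universal Skolem set of density one).
-/

set_option autoImplicit false

namespace Pool.Agent.Helper61A.US

open Polynomial Finset Pool.Agent.H692R2.USS
open scoped Classical

/-- the number of roots modulo `p` -/
theorem roots_bound (p k : ℕ) (hp : p.Prime) (f : ℤ[X])
    (hf : f.map (Int.castRingHom (ZMod p)) ≠ 0) (hd : f.natDegree ≤ k) :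
    ((range p).filter (fun x : ℕ => (p : ℤ) ∣ f.eval (x : ℤ))).card ≤ k := by
  have : Fact p.Prime := ⟨hp⟩
  set g := f.map (Int.castRingHom (ZMod p)) with hg
  have h1 : ((range p).filter (fun x : ℕ => (p : ℤ) ∣ f.eval (x : ℤ))).card ≤
      g.roots.toFinset.card := by
    apply Finset.card_le_card_of_injOn (fun x : ℕ => (x : ZMod p))
    · intro x hx
      simp only [coe_filter, mem_range, Set.mem_ofPred_eq] at hx
      simp only [Finset.mem_coe, Multiset.mem_toFinset]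
      rw [mem_roots hf, IsRoot.def, hg]
      have h2 : ((x : ZMod p)) = Int.castRingHom (ZMod p) (x : ℤ) := by simp
      rw [h2, eval_map, eval₂_at_apply]
      simp only [eq_intCast]
      exact (ZMod.intCast_zmod_eq_zero_iff_dvd _ _).mpr hx.2
    · intro x hx y hy hxy
      simp only [coe_filter, mem_range, Set.mem_ofPred_eq] at hx hy
      have h2 := (ZMod.natCast_eq_natCast_iff' x y p).mp hxy
      rwa [Nat.mod_eq_of_lt hx.1, Nat.mod_eq_of_lt hy.1] at h2
  calc _ ≤ g.roots.toFinset.card := h1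
    _ ≤ Multiset.card g.roots := Multiset.toFinset_card_le _
    _ ≤ g.natDegree := card_roots' g
    _ ≤ f.natDegree := natDegree_map_le
    _ ≤ k := hd

/-- residues which are roots of a nonzero polynomial with small coefficients -/
noncomputable def XX (k p H : ℕ) : Finset ℕ :=
  (range p).filter (fun x : ℕ => ∃ f : ℤ[X], f ≠ 0 ∧ f.natDegree ≤ k ∧ (∀ i, |f.coeff i| < (H : ℤ)) ∧
    (p : ℤ) ∣ f.eval (x : ℤ))

theorem XX_card (k p H : ℕ) (hp : p.Prime) (hH : H ≤ p) :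
    (XX k p H).card ≤ (2 * H) ^ (k + 1) * k := by
  set Q : Finset ℤ[X] := ((Fintype.piFinset (fun _ : Fin (k + 1) => Finset.Ioo (-(H : ℤ)) H)).image
    (fun c => ∑ i : Fin (k + 1), C (c i) * X ^ (i : ℕ))).filter
      (fun f => f ≠ 0 ∧ f.natDegree ≤ k ∧ ∀ i, |f.coeff i| < (H : ℤ)) with hQ
  have hQc : Q.card ≤ (2 * H) ^ (k + 1) := by
    refine (Finset.card_filter_le _ _).trans (Finset.card_image_le.trans ?_)
    rw [Fintype.card_piFinset]
    simp only [Int.card_Ioo, Finset.prod_const, Finset.card_univ, Fintype.card_fin]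
    apply Nat.pow_le_pow_left
    omega
  have hsub : XX k p H ⊆ Q.biUnion
      (fun f => (range p).filter (fun x : ℕ => (p : ℤ) ∣ f.eval (x : ℤ))) := by
    intro x hx
    unfold XX at hx
    rw [mem_filter] at hx
    obtain ⟨hxp, f, hf0, hfd, hfc, hfx⟩ := hx
    rw [mem_biUnion]
    refine ⟨f, ?_, ?_⟩
    · rw [hQ, mem_filter, mem_image]
      refine ⟨⟨fun i => f.coeff i, ?_, ?_⟩, hf0, hfd, hfc⟩
      · rw [Fintype.mem_piFinset]
        intro i
        rw [Finset.mem_Ioo]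
        exact abs_lt.mp (hfc i)
      · rw [Fin.sum_univ_eq_sum_range (fun i => C (f.coeff i) * X ^ i) (k + 1)]
        exact (f.as_sum_range_C_mul_X_pow' (by omega)).symm
    · rw [mem_filter]
      exact ⟨hxp, hfx⟩
  refine (Finset.card_le_card hsub).trans (Finset.card_biUnion_le.trans ?_)
  refine (Finset.sum_le_card_nsmul Q _ k ?_).trans ?_
  · intro f hf
    rw [hQ, mem_filter] at hf
    obtain ⟨-, hf0, hfd, hfc⟩ := hf
    apply roots_bound p k hp f _ hfd
    intro h0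
    apply hf0
    ext i
    rw [coeff_zero]
    have h1 : (f.map (Int.castRingHom (ZMod p))).coeff i = 0 := by rw [h0, coeff_zero]
    rw [coeff_map] at h1
    simp only [eq_intCast] at h1
    have h2 := (ZMod.intCast_zmod_eq_zero_iff_dvd _ _).mp h1
    exact Int.eq_zero_of_abs_lt_dvd h2 (lt_of_lt_of_le (hfc i) (by exact_mod_cast hH))
  · rw [smul_eq_mul]
    exact Nat.mul_le_mul_right _ hQc

/-- few `n` are bad for the prime `p` -/
theorem bad_card (k p M : ℕ) (hk : 1 ≤ k) (hp : p.Prime) (hM : p * (p - 1) ∣ M) :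
    ((range M).filter (fun n => 4 * k * (k + 1) * (n % (p - 1) + 1) ≤ Nat.log 2 p ∧
      ¬ Generic k p n)).card ≤
      (M / (p * (p - 1))) * (((2 * 2 ^ (Nat.log 2 p / (4 * (k + 1)))) ^ (k + 1) * k) * Nat.log 2 p) := by
  set H := 2 ^ (Nat.log 2 p / (4 * (k + 1))) with hH
  have hHp : H ≤ p := by
    refine le_trans ?_ (Nat.pow_log_le_self 2 hp.ne_zero)
    exact Nat.pow_le_pow_right (by norm_num) (Nat.div_le_self _ _)
  have hcard : ((range (M / (p * (p - 1)))) ×ˢ (XX k p H ×ˢ range (Nat.log 2 p))).card ≤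
      (M / (p * (p - 1))) * (((2 * H) ^ (k + 1) * k) * Nat.log 2 p) := by
    rw [card_product, card_product, card_range, card_range]
    exact Nat.mul_le_mul_left _ (Nat.mul_le_mul_right _ (XX_card k p H hp hHp))
  refine le_trans ?_ hcard
  apply Finset.card_le_card_of_injOn (fun n : ℕ => (n / (p * (p - 1)), (n % p, n % (p - 1))))
  · intro n hn
    simp only [coe_filter, mem_range, Set.mem_ofPred_eq] at hn
    obtain ⟨hnM, hn1, hn2⟩ := hn
    simp only [Finset.mem_coe, mem_product, mem_range]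
    refine ⟨Nat.div_lt_div_of_lt_of_dvd hM hnM, ?_, ?_⟩
    · unfold Generic at hn2
      push Not at hn2
      obtain ⟨f, hf0, hfd, hfc, hfn⟩ := hn2
      unfold XX
      rw [mem_filter, mem_range]
      refine ⟨Nat.mod_lt _ hp.pos, f, hf0, hfd, ?_, ?_⟩
      · intro i
        have := hfc i
        rw [hH]
        push_cast
        exact this
      · have h1 : ((n : ℤ) - ((n % p : ℕ) : ℤ)) ∣ f.eval (n : ℤ) - f.eval ((n % p : ℕ) : ℤ) :=
          sub_dvd_eval_sub _ _ f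
        have h2 : (p : ℤ) ∣ (n : ℤ) - ((n % p : ℕ) : ℤ) := by
          push_cast
          exact Int.dvd_self_sub_emod
        have h3 := h2.trans h1
        have h4 := dvd_sub hfn h3
        simpa using h4
    · have : 1 * (n % (p - 1) + 1) ≤ 4 * k * (k + 1) * (n % (p - 1) + 1) := by
        apply Nat.mul_le_mul_right
        nlinarith
      omega
  · intro n hn m hm hnm
    simp only [Prod.mk.injEq] at hnm
    obtain ⟨h1, h2, h3⟩ := hnm
    have hcop : Nat.Coprime p (p - 1) := by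
      have hp1 : p = (p - 1) + 1 := (Nat.sub_add_cancel hp.one_le).symm
      rw [Nat.coprime_comm]
      nth_rewrite 2 [hp1]
      exact (Nat.coprime_self_add_right).mpr (Nat.coprime_one_right _)
    have h4 : n ≡ m [MOD p * (p - 1)] :=
      (Nat.modEq_and_modEq_iff_modEq_mul hcop).mp ⟨h2, h3⟩
    have h5 : n % (p * (p - 1)) = m % (p * (p - 1)) := h4
    rw [← Nat.div_add_mod n (p * (p - 1)), ← Nat.div_add_mod m (p * (p - 1)), h1, h5]

theorem log_bound (p k : ℕ) (hp : p.Prime) :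
    ((((2 * 2 ^ (Nat.log 2 p / (4 * (k + 1)))) ^ (k + 1) * k) * Nat.log 2 p : ℕ) : ℝ) ≤
      4 * (2 ^ (k + 1) * k) * √p := by
  set L := Nat.log 2 p with hL
  have h1 : (2 ^ (L / (4 * (k + 1)))) ^ (k + 1) ≤ 2 ^ (L / 4) := by
    rw [← pow_mul]
    apply Nat.pow_le_pow_right (by norm_num)
    rw [← Nat.div_div_eq_div_mul]
    exact Nat.div_mul_le_self _ _
  have h2 : L ≤ 4 * 2 ^ (L / 4) := by
    have : L / 4 < 2 ^ (L / 4) := Nat.lt_two_pow_self
    omega
  have h3 : ((2 ^ (L / 4)) ^ 2) ^ 2 ≤ p := by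
    refine le_trans ?_ (Nat.pow_log_le_self 2 hp.ne_zero)
    rw [← pow_mul, ← pow_mul]
    apply Nat.pow_le_pow_right (by norm_num)
    omega
  have h4 : (((2 ^ (L / 4)) ^ 2 : ℕ) : ℝ) ≤ √p := by
    apply Real.le_sqrt_of_sq_le
    exact_mod_cast h3
  have h5 : ((2 * 2 ^ (L / (4 * (k + 1)))) ^ (k + 1) * k) * L ≤
      4 * (2 ^ (k + 1) * k) * (2 ^ (L / 4)) ^ 2 := by
    rw [mul_pow]
    calc (2 ^ (k + 1) * (2 ^ (L / (4 * (k + 1)))) ^ (k + 1) * k) * L
        ≤ (2 ^ (k + 1) * 2 ^ (L / 4) * k) * (4 * 2 ^ (L / 4)) := by gcongr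
      _ = 4 * (2 ^ (k + 1) * k) * (2 ^ (L / 4)) ^ 2 := by ring
  calc ((((2 * 2 ^ (L / (4 * (k + 1)))) ^ (k + 1) * k) * L : ℕ) : ℝ)
      ≤ ((4 * (2 ^ (k + 1) * k) * (2 ^ (L / 4)) ^ 2 : ℕ) : ℝ) := by exact_mod_cast h5
    _ = 4 * (2 ^ (k + 1) * k) * (((2 ^ (L / 4)) ^ 2 : ℕ) : ℝ) := by push_cast; ring
    _ ≤ 4 * (2 ^ (k + 1) * k) * √p := by gcongr

/-- few `n` are non-generic for large primes -/
theorem nonGen (k : ℕ) (hk : 1 ≤ k) : NonGen k := by
  intro ε hε
  have hsum : Summable (fun n : ℕ => (8 * (2 ^ (k + 1) * (k : ℝ))) * (1 / (n : ℝ) ^ (3 / 2 : ℝ))) :=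
    (Real.summable_one_div_nat_rpow.mpr (by norm_num)).mul_left _
  obtain ⟨s, hs⟩ := summable_iff_vanishing_norm.mp hsum ε hε
  refine ⟨s.sup id + 1, ?_⟩
  intro L M hM hdvd
  set P : Finset ℕ := (range (2 ^ L)).filter (fun p => p.Prime ∧ s.sup id + 1 ≤ p) with hP
  have hdis : Disjoint P s := by
    rw [Finset.disjoint_left]
    intro p hp hps
    rw [hP, mem_filter] at hp
    have := Finset.le_sup (f := id) hps
    simp only [id] at this
    omega
  have hlt := hs P hdis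
  have hsub : (range M).filter (fun n => ∃ p, p.Prime ∧ s.sup id + 1 ≤ p ∧ p < 2 ^ L ∧
      4 * k * (k + 1) * (n % (p - 1) + 1) ≤ Nat.log 2 p ∧ ¬ Generic k p n) ⊆
      P.biUnion (fun p => (range M).filter (fun n => 4 * k * (k + 1) * (n % (p - 1) + 1) ≤ Nat.log 2 p ∧
      ¬ Generic k p n)) := by
    intro n hn
    rw [mem_filter] at hn
    obtain ⟨hnM, p, hpp, hxp, hpL, h1, h2⟩ := hn
    rw [mem_biUnion]
    refine ⟨p, ?_, ?_⟩
    · rw [hP, mem_filter, mem_range]
      exact ⟨hpL, hpp, hxp⟩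
    · rw [mem_filter]
      exact ⟨hnM, h1, h2⟩
  have hterm : ∀ p ∈ P, (((range M).filter (fun n => 4 * k * (k + 1) * (n % (p - 1) + 1) ≤ Nat.log 2 p ∧
      ¬ Generic k p n)).card : ℝ) ≤
      (8 * (2 ^ (k + 1) * (k : ℝ))) * (1 / (p : ℝ) ^ (3 / 2 : ℝ)) * M := by
    intro p hp
    rw [hP, mem_filter, mem_range] at hp
    obtain ⟨hpL, hpp, -⟩ := hp
    have h1 := bad_card k p M hk hpp (hdvd p hpp hpL)
    have h2 := log_bound p k hpp
    have hp2 : (2 : ℝ) ≤ p := by exact_mod_cast hpp.two_le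
    have hp0 : (0 : ℝ) < p := by linarith
    have hcast : ((M / (p * (p - 1)) : ℕ) : ℝ) ≤ 2 * M / (p : ℝ) ^ 2 := by
      refine Nat.cast_div_le.trans ?_
      have h3 : (((p * (p - 1) : ℕ)) : ℝ) = p * (p - 1) := by
        push_cast [Nat.cast_sub hpp.one_le]
        ring
      rw [h3, div_le_div_iff₀ (by nlinarith) (by positivity)]
      have hM0 : (0 : ℝ) ≤ M := Nat.cast_nonneg _
      nlinarith [mul_nonneg hM0 (mul_nonneg hp0.le (sub_nonneg.mpr hp2))]
    have h4 : (((range M).filter (fun n => 4 * k * (k + 1) * (n % (p - 1) + 1) ≤ Nat.log 2 p ∧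
      ¬ Generic k p n)).card : ℝ) ≤ (2 * M / (p : ℝ) ^ 2) * (4 * (2 ^ (k + 1) * k) * √p) := by
      refine (Nat.cast_le.mpr h1).trans ?_
      rw [Nat.cast_mul]
      apply mul_le_mul hcast h2 (Nat.cast_nonneg _) (by positivity)
    refine h4.trans (le_of_eq ?_)
    have h5 : (p : ℝ) ^ (3 / 2 : ℝ) * √p = (p : ℝ) ^ 2 := by
      rw [Real.sqrt_eq_rpow, ← Real.rpow_add hp0, ← Real.rpow_natCast]
      norm_num
    have h6 : (0 : ℝ) < (p : ℝ) ^ (3 / 2 : ℝ) := Real.rpow_pos_of_pos hp0 _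
    have h7 : (0 : ℝ) < √p := Real.sqrt_pos.mpr hp0
    rw [← h5]
    field_simp
    ring
  calc (((range M).filter (fun n => ∃ p, p.Prime ∧ s.sup id + 1 ≤ p ∧ p < 2 ^ L ∧
      4 * k * (k + 1) * (n % (p - 1) + 1) ≤ Nat.log 2 p ∧ ¬ Generic k p n)).card : ℝ)
      ≤ ((∑ p ∈ P, ((range M).filter (fun n => 4 * k * (k + 1) * (n % (p - 1) + 1) ≤ Nat.log 2 p ∧
      ¬ Generic k p n)).card : ℕ) : ℝ) := by
        exact_mod_cast (Finset.card_le_card hsub).trans Finset.card_biUnion_le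
    _ = ∑ p ∈ P, (((range M).filter (fun n => 4 * k * (k + 1) * (n % (p - 1) + 1) ≤ Nat.log 2 p ∧
      ¬ Generic k p n)).card : ℝ) := by push_cast; rfl
    _ ≤ ∑ p ∈ P, (8 * (2 ^ (k + 1) * (k : ℝ))) * (1 / (p : ℝ) ^ (3 / 2 : ℝ)) * M :=
        Finset.sum_le_sum hterm
    _ = (∑ p ∈ P, (8 * (2 ^ (k + 1) * (k : ℝ))) * (1 / (p : ℝ) ^ (3 / 2 : ℝ))) * M := by
        rw [Finset.sum_mul]
    _ ≤ ε * M := by
        apply mul_le_mul_of_nonneg_right _ (Nat.cast_nonneg _)
        exact (le_abs_self _).trans hlt.le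

/-- part A5 -/
theorem t_A5 : Pool.Agent.TH997.US.A5 := nonGen

end Pool.Agent.Helper61A.US
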